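import Pool.Agent.Helper86.TH.Stmts

/-! # Row DS of the project TH: the word side as a sum of `tp` -/

set_option linter.unusedSectionVars false

namespace TH95

open TH MvPolynomial Finset

section
variable {K : Type*} [Field K] [CharZero K]

theorem ctL_of_subset (q t : K) (m : ℕ) (L : Fin m → ℤ) (P : MvPolynomial (Fin m) K)
    (T : Finset (Fin m →₀ ℕ)) (h : P.support ⊆ T) :
    ctL q t m L P = ∑ α ∈ T, P.coeff α * ct q t m (fun i => L i - (α i : ℤ)) := by
  rw [ctL]
  refine Finset.sum_subset h fun α _ hα => ?_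
  rw [notMem_support_iff.1 hα, zero_mul]

theorem ctL_add (q t : K) (m : ℕ) (L : Fin m → ℤ) (P Q : MvPolynomial (Fin m) K) :
    ctL q t m L (P + Q) = ctL q t m L P + ctL q t m L Q := by
  classical
  set T := (P + Q).support ∪ (P.support ∪ Q.support) with hT
  rw [ctL_of_subset q t m L (P + Q) T Finset.subset_union_left,
    ctL_of_subset q t m L P T (Finset.subset_union_left.trans Finset.subset_union_right),
    ctL_of_subset q t m L Q T (Finset.subset_union_right.trans Finset.subset_union_right),
    ← Finset.sum_add_distrib]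
  refine Finset.sum_congr rfl fun α _ => ?_
  rw [coeff_add, add_mul]

theorem ctL_smul (q t : K) (m : ℕ) (L : Fin m → ℤ) (c : K) (P : MvPolynomial (Fin m) K) :
    ctL q t m L (c • P) = c * ctL q t m L P := by
  classical
  set T := (c • P).support ∪ P.support with hT
  rw [ctL_of_subset q t m L (c • P) T Finset.subset_union_left,
    ctL_of_subset q t m L P T Finset.subset_union_right, Finset.mul_sum]
  refine Finset.sum_congr rfl fun α _ => ?_
  rw [coeff_smul, smul_eq_mul, mul_assoc]

/-- `ctL` as a linear map -/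
def ctM (q t : K) (m : ℕ) (L : Fin m → ℤ) : MvPolynomial (Fin m) K →ₗ[K] K where
  toFun := ctL q t m L
  map_add' := ctL_add q t m L
  map_smul' c P := by rw [ctL_smul]; rfl

theorem ctM_mono (q t : K) (m : ℕ) (L : Fin m → ℤ) (a : Fin m → ℕ) :
    ctM q t m L (∏ i, X i ^ (a i)) = ct q t m (fun i => L i - (a i : ℤ)) := by
  classical
  have h1 : (∏ i, X i ^ (a i) : MvPolynomial (Fin m) K)
      = monomial (Finsupp.equivFunOnFinite.symm a) 1 := by
    rw [monomial_eq, C_1, one_mul, Finsupp.prod_fintype _ _ (fun i => by simp)]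
    rfl
  change ctL q t m L _ = _
  rw [h1, ctL_of_subset q t m L _ {Finsupp.equivFunOnFinite.symm a} (support_monomial_subset),
    Finset.sum_singleton, coeff_monomial, if_pos rfl, one_mul]
  rfl

theorem st_DS (hEZ : ST_EZ K) (hEH : ST_EH K) (hES : ST_ES K) (hTC : ST_TC K) : ST_DS K := by
  classical
  intro q t m b k d hm hd
  set N := ∑ i, b i + k with hN
  rw [hEZ, map_mul, map_mul, (hEH m d).1, (hEH m (N - d)).2, hES m k hm]
  change (-1) ^ (∑ i, b i + k * m) * ctM q t m _ _ = _
  -- the product
  have h1 : ((-1) ^ d * ∑ S ∈ powersetCard d (univ : Finset (Fin m)), ∏ i ∈ S, X i) *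
      ((-1) ^ (N - d) * ∑ α ∈ Finset.piAntidiag (univ : Finset (Fin m)) (N - d), ∏ i, X i ^ (α i)) *
      ((-1) ^ (k * (m - 1)) *
        ∑ γ ∈ Finset.piAntidiag (univ : Finset (Fin m)) k, ∏ i, X i ^ (k - γ i))
      = ((-1 : K) ^ (∑ i, b i + k * m)) •
        ∑ S ∈ powersetCard d (univ : Finset (Fin m)),
          ∑ γ ∈ Finset.piAntidiag (univ : Finset (Fin m)) k,
            ∑ α ∈ Finset.piAntidiag (univ : Finset (Fin m)) (N - d),
              (∏ i, X i ^ ((if i ∈ S then 1 else 0) + α i + (k - γ i)) :
                MvPolynomial (Fin m) K) := by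
    have h2 : ∀ S : Finset (Fin m), (∏ i ∈ S, X i : MvPolynomial (Fin m) K)
        = ∏ i, X i ^ (if i ∈ S then 1 else 0) := by
      intro S
      rw [← Finset.prod_filter_mul_prod_filter_not univ (fun i => i ∈ S)]
      have h3 : ∏ i ∈ univ.filter (fun i => i ∉ S), (X i : MvPolynomial (Fin m) K) ^
          (if i ∈ S then 1 else 0) = 1 := by
        refine Finset.prod_eq_one fun i hi => ?_
        rw [Finset.mem_filter] at hi
        rw [if_neg hi.2, pow_zero]
      rw [h3, mul_one]
      have h4 : univ.filter (fun i => i ∈ S) = S := by ext i; simp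
      rw [h4]
      refine Finset.prod_congr rfl fun i hi => ?_
      rw [if_pos hi, pow_one]
    have h5 : ((-1 : MvPolynomial (Fin m) K) ^ d * (-1) ^ (N - d) * (-1) ^ (k * (m - 1)))
        = C ((-1 : K) ^ (∑ i, b i + k * m)) := by
      rw [← pow_add, ← pow_add]
      have h6 : d + (N - d) + k * (m - 1) = ∑ i, b i + k * m := by
        obtain ⟨m', rfl⟩ : ∃ m', m = m' + 1 := ⟨m - 1, by omega⟩
        rw [Nat.add_sub_cancel]
        have : k * (m' + 1) = k * m' + k := by ring
        omega
      rw [h6]
      simp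
    rw [smul_eq_C_mul, ← h5]
    have h7 : (∑ S ∈ powersetCard d (univ : Finset (Fin m)),
          ∑ γ ∈ Finset.piAntidiag (univ : Finset (Fin m)) k,
            ∑ α ∈ Finset.piAntidiag (univ : Finset (Fin m)) (N - d),
              (∏ i, X i ^ ((if i ∈ S then 1 else 0) + α i + (k - γ i)) :
                MvPolynomial (Fin m) K))
        = (∑ S ∈ powersetCard d (univ : Finset (Fin m)), ∏ i ∈ S, X i) *
          (∑ α ∈ Finset.piAntidiag (univ : Finset (Fin m)) (N - d), ∏ i, X i ^ (α i)) *
          (∑ γ ∈ Finset.piAntidiag (univ : Finset (Fin m)) k, ∏ i, X i ^ (k - γ i)) := by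
      rw [Finset.sum_mul, Finset.sum_mul]
      refine Finset.sum_congr rfl fun S _ => ?_
      rw [Finset.mul_sum, Finset.mul_sum]
      refine Finset.sum_congr rfl fun γ _ => ?_
      rw [Finset.sum_mul]
      refine Finset.sum_congr rfl fun α _ => ?_
      rw [h2, ← Finset.prod_mul_distrib, ← Finset.prod_mul_distrib]
      refine Finset.prod_congr rfl fun i _ => ?_
      rw [pow_add, pow_add]
    rw [h7]
    ring
  rw [h1, map_smul, smul_eq_mul, ← mul_assoc, ← pow_add, Even.neg_one_pow ⟨_, rfl⟩, one_mul,
    map_sum]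
  simp only [map_sum, ctM_mono]
  split_ifs with hdm
  · -- reindex by the complement
    have hbij : powersetCard d (univ : Finset (Fin m))
        = (powersetCard (m - d) (univ : Finset (Fin m))).image compl := by
      ext S
      rw [Finset.mem_image]
      constructor
      · intro hS
        refine ⟨Sᶜ, ?_, compl_compl S⟩
        rw [Finset.mem_powersetCard] at hS ⊢
        refine ⟨Finset.subset_univ _, ?_⟩
        rw [Finset.card_compl, hS.2, Fintype.card_fin]
      · rintro ⟨R, hR, rfl⟩
        rw [Finset.mem_powersetCard] at hR ⊢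
        refine ⟨Finset.subset_univ _, ?_⟩
        rw [Finset.card_compl, hR.2, Fintype.card_fin]
        omega
    rw [hbij, Finset.sum_image (fun a _ b _ hab => compl_injective hab)]
    refine Finset.sum_congr rfl fun R hR => ?_
    refine Finset.sum_congr rfl fun γ hγ => ?_
    rw [Finset.mem_powersetCard] at hR
    rw [Finset.mem_piAntidiag] at hγ
    have hsum : ∑ i, ((b i : ℤ) - 1 + (if i ∈ R then 1 else 0) + (γ i : ℤ)) = ((N - d : ℕ) : ℤ) := by
      rw [Finset.sum_add_distrib, Finset.sum_add_distrib, Finset.sum_sub_distrib]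
      have h8 : ∑ i : Fin m, (if i ∈ R then (1 : ℤ) else 0) = ((m - d : ℕ) : ℤ) := by
        rw [Finset.sum_ite_mem, Finset.univ_inter, Finset.sum_const, hR.2]
        simp
      have h9 : ∑ i : Fin m, (γ i : ℤ) = (k : ℤ) := by
        rw [← hγ.1]; push_cast; rfl
      rw [h8, h9]
      have h10 : ((N - d : ℕ) : ℤ) = (∑ i, (b i : ℤ)) + k - d := by
        rw [Nat.cast_sub hd, hN]
        push_cast
        ring
      rw [h10]
      rw [Nat.cast_sub hdm]
      simp
      ring
    rw [hTC, if_pos (by rw [hsum]; exact Int.natCast_nonneg _), hsum, Int.toNat_natCast]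
    refine Finset.sum_congr rfl fun α _ => ?_
    congr 1
    funext i
    have hle : γ i ≤ k := by
      rw [← hγ.1]
      exact Finset.single_le_sum (f := γ) (fun i _ => Nat.zero_le _) (Finset.mem_univ i)
    rw [Nat.cast_add, Nat.cast_add, Nat.cast_sub hle]
    by_cases hi : i ∈ R
    · rw [if_neg (by simpa using hi), if_pos hi]; push_cast; ring
    · rw [if_pos (by simpa using hi), if_neg hi]; push_cast; ring
  · have : powersetCard d (univ : Finset (Fin m)) = ∅ := by
      rw [Finset.powersetCard_eq_empty, Finset.card_univ, Fintype.card_fin]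
      omega
    rw [this, Finset.sum_empty]

end

end TH95
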