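import Pool.Agent.Helper86.TH.Stmts

/-! # Row HH of the project TH: products of complete functions and dominance -/

set_option linter.unusedSectionVars false

namespace TH95

open TH MvPolynomial Finset

/-- extension of a permutation of `Fin n` to `ℕ` -/
def ex {n : ℕ} (σ : Equiv.Perm (Fin n)) (i : ℕ) : ℕ := if h : i < n then (σ ⟨i, h⟩ : ℕ) else i

theorem ex_lt {n : ℕ} (σ : Equiv.Perm (Fin n)) {i : ℕ} (h : i < n) :
    ex σ i = (σ ⟨i, h⟩ : ℕ) := by rw [ex, dif_pos h]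

theorem ex_fin {n : ℕ} (σ : Equiv.Perm (Fin n)) (i : Fin n) : ex σ i = (σ i : ℕ) := by
  rw [ex_lt σ i.2]

theorem ex_ge {n : ℕ} (σ : Equiv.Perm (Fin n)) {i : ℕ} (h : n ≤ i) : ex σ i = i := by
  rw [ex, dif_neg (by omega)]

theorem ex_lt' {n : ℕ} (σ : Equiv.Perm (Fin n)) {i : ℕ} (h : i < n) : ex σ i < n := by
  rw [ex_lt σ h]; exact (σ ⟨i, h⟩).2

theorem ex_inv {n : ℕ} (σ : Equiv.Perm (Fin n)) (i : ℕ) : ex σ (ex σ⁻¹ i) = i := by
  by_cases h : i < n
  · rw [ex_lt σ⁻¹ h, ex_fin]; simp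
  · rw [ex_ge σ⁻¹ (by omega), ex_ge σ (by omega)]

theorem ex_inj {n : ℕ} (σ : Equiv.Perm (Fin n)) : Function.Injective (ex σ) := by
  have h : Function.LeftInverse (ex σ⁻¹) (ex σ) := by
    intro i
    have := ex_inv σ⁻¹ i
    rwa [inv_inv] at this
  exact h.injective

theorem sum_range_le (f : ℕ → ℤ) (hf : Monotone f) (r : ℕ) (T : Finset ℕ) (hT : T.card = r) :
    ∑ j ∈ range r, f j ≤ ∑ j ∈ T, f j := by
  induction r generalizing T with
  | zero => rw [Finset.card_eq_zero.1 hT]; simp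
  | succ r ih =>
    have hne : T.Nonempty := by rw [← Finset.card_pos]; omega
    set m := T.max' hne with hmdef
    have hm : m ∈ T := T.max'_mem hne
    have hrm : r ≤ m := by
      have h1 : T ⊆ range (m + 1) := fun x hx => by
        rw [mem_range]; have := T.le_max' x hx; omega
      have h2 := Finset.card_le_card h1
      rw [Finset.card_range, hT] at h2; omega
    have h1 := ih (T.erase m) (by rw [Finset.card_erase_of_mem hm, hT]; rfl)
    rw [sum_range_succ, ← Finset.sum_erase_add _ _ hm]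
    exact add_le_add h1 (hf hrm)

theorem sum_ex {n : ℕ} (σ : Equiv.Perm (Fin n)) (k : ℕ) :
    ∑ i ∈ range k, (i : ℤ) ≤ ∑ i ∈ range k, (ex σ i : ℤ) := by
  have h := sum_range_le (fun j => (j : ℤ)) (fun a b hab => Int.ofNat_le.2 hab) k
    ((range k).image (ex σ)) (by rw [Finset.card_image_of_injective _ (ex_inj σ), Finset.card_range])
  rw [Finset.sum_image (fun a _ b _ hab => ex_inj σ hab)] at h
  exact h


theorem sum_ex_lt {n : ℕ} (σ : Equiv.Perm (Fin n)) (hσ : σ ≠ 1) :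
    ∃ k, k ≤ n ∧ ∑ i ∈ range k, (i : ℤ) < ∑ i ∈ range k, (ex σ i : ℤ) := by
  classical
  have h1 : ∃ i : ℕ, i < n ∧ ex σ i ≠ i := by
    by_contra h2
    push Not at h2
    apply hσ
    ext i
    have := h2 i i.2
    rw [ex_fin] at this
    simpa using this
  set i0 := Nat.find h1 with hi0
  obtain ⟨h2, h3⟩ := Nat.find_spec h1
  have h4 : ∀ j, j < i0 → ex σ j = j := by
    intro j hj
    have := Nat.find_min h1 hj
    push Not at this
    exact this (by omega)
  have h5 : i0 < ex σ i0 := by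
    rcases Nat.lt_trichotomy (ex σ i0) i0 with h | h | h
    · exfalso
      have := h4 _ h
      have := ex_inj σ this
      omega
    · exact absurd h h3
    · exact h
  refine ⟨i0 + 1, by omega, ?_⟩
  rw [sum_range_succ, sum_range_succ]
  have h6 : ∑ i ∈ range i0, (ex σ i : ℤ) = ∑ i ∈ range i0, (i : ℤ) := by
    refine Finset.sum_congr rfl fun j hj => ?_
    rw [h4 j (mem_range.1 hj)]
  rw [h6]
  have : (i0 : ℤ) < (ex σ i0 : ℤ) := by exact_mod_cast h5
  linarith

section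
variable {K : Type*} [Field K] [CharZero K]

theorem key (n : ℕ) (κ : Par) (hκ : card κ = n) (σ : Equiv.Perm (Fin n)) (hσ : σ ≠ 1) :
    (hp K n (fun i => (κ.1 i : ℤ) - (i : ℤ) + (σ i : ℤ)) = 0) ∨
    ∃ κ' : Par, card κ' = n ∧ Dom κ.1 κ'.1 ∧
      (∃ k, k ≤ n ∧ ∑ i ∈ range k, κ.1 i < ∑ i ∈ range k, κ'.1 i) ∧
      hp K n (fun i => (κ.1 i : ℤ) - (i : ℤ) + (σ i : ℤ)) = hp K n (fun i => (κ'.1 i : ℤ)) := by
  by_cases hneg : ∃ i : Fin n, (κ.1 i : ℤ) - (i : ℤ) + (σ i : ℤ) < 0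
  · left
    obtain ⟨i, hi⟩ := hneg
    rw [hp]
    refine Finset.prod_eq_zero (Finset.mem_univ i) ?_
    rw [hz, if_neg (by omega)]
  right
  push Not at hneg
  set a : Fin n → ℕ := fun i => ((κ.1 i : ℤ) - (i : ℤ) + (σ i : ℤ)).toNat with ha
  have ha' : ∀ i : Fin n, (a i : ℤ) = (κ.1 i : ℤ) - (i : ℤ) + (σ i : ℤ) := fun i =>
    Int.toNat_of_nonneg (hneg i)
  set τ : Equiv.Perm (Fin n) := Tuple.sort (fun i => OrderDual.toDual (a i)) with hτ
  have hmono : Monotone ((fun i => OrderDual.toDual (a i)) ∘ τ) := Tuple.monotone_sort _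
  set A : ℕ → ℕ := fun i => if h : i < n then a ⟨i, h⟩ else 0 with hA
  have hA1 : ∀ i, (A i : ℤ) = (κ.1 i : ℤ) - (i : ℤ) + (ex σ i : ℤ) := by
    intro i
    by_cases h : i < n
    · have h1 : A i = a ⟨i, h⟩ := by rw [hA]; simp only [h, dif_pos]
      rw [h1, ha' ⟨i, h⟩, ex_lt σ h]
    · have h1 : A i = 0 := by rw [hA]; simp only [h, dif_neg, not_false_iff]
      rw [h1, ex_ge σ (by omega), κ.zero_of_card_le (by omega)]
      simp
  set g : ℕ → ℕ := fun i => A (ex τ i) with hg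
  have hg0 : ∀ i, n ≤ i → g i = 0 := by
    intro i hi
    simp only [hg, hA, ex_ge τ hi]
    rw [dif_neg (by omega)]
  have hg1 : ∀ i (h : i < n), g i = a (τ ⟨i, h⟩) := by
    intro i hi
    simp only [hg, hA]
    rw [dif_pos (ex_lt' τ hi)]
    congr 1
    exact Fin.ext (ex_lt τ hi)
  have hanti : Antitone g := by
    intro i j hij
    by_cases hj : j < n
    · rw [hg1 i (by omega), hg1 j hj]
      have := hmono (show (⟨i, by omega⟩ : Fin n) ≤ ⟨j, hj⟩ from hij)
      exact this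
    · rw [hg0 j (by omega)]; exact Nat.zero_le _
  set κ' : Par := ⟨Finsupp.onFinset (range n) g (fun i hi => by
    rw [mem_range]; by_contra h; exact hi (hg0 i (by omega))), hanti⟩ with hκ'
  have hκ'1 : ∀ i, κ'.1 i = g i := fun i => rfl
  have hsumA : ∀ k, ∑ i ∈ range k, (A i : ℤ) ≤ ∑ i ∈ range k, (g i : ℤ) := by
    intro k
    have h := sum_range_le (fun j => -(g j : ℤ)) (fun x y hxy => by
      have := hanti hxy
      simp only [neg_le_neg_iff]
      exact_mod_cast this) k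
      ((range k).image (ex τ⁻¹)) (by
        rw [Finset.card_image_of_injective _ (ex_inj τ⁻¹), Finset.card_range])
    rw [Finset.sum_image (fun a _ b _ hab => ex_inj τ⁻¹ hab), Finset.sum_neg_distrib,
      Finset.sum_neg_distrib, neg_le_neg_iff] at h
    have h1 : ∀ i, g (ex τ⁻¹ i) = A i := by
      intro i
      simp only [hg]
      rw [ex_inv]
    simp only [h1] at h
    exact h
  have hA2 : ∀ k, ∑ i ∈ range k, (A i : ℤ) = ∑ i ∈ range k, (κ.1 i : ℤ)
      - ∑ i ∈ range k, (i : ℤ) + ∑ i ∈ range k, (ex σ i : ℤ) := by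
    intro k
    rw [← Finset.sum_sub_distrib, ← Finset.sum_add_distrib]
    exact Finset.sum_congr rfl fun i _ => hA1 i
  refine ⟨κ', ?_, ?_, ?_, ?_⟩
  · rw [TH.card_range κ' n (fun i hi => hg0 i hi)]
    have h1 : ∑ i ∈ range n, κ'.1 i = ∑ i ∈ range n, A i := by
      rw [Finset.sum_range, Finset.sum_range]
      have h2 : ∀ i : Fin n, κ'.1 i = A (τ i : Fin n) := by
        intro i
        rw [hκ'1]
        simp only [hg]
        rw [ex_fin]
      simp only [h2]
      exact Equiv.sum_comp τ (fun i : Fin n => A i)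
    have h2 : ∑ i ∈ range n, (ex σ i : ℤ) = ∑ i ∈ range n, (i : ℤ) := by
      rw [Finset.sum_range, Finset.sum_range]
      simp only [ex_fin]
      exact Equiv.sum_comp σ (fun i : Fin n => ((i : ℕ) : ℤ))
    have h3 := hA2 n
    rw [h2] at h3
    have h4 := TH.card_range κ n (fun i hi => κ.zero_of_card_le (by omega))
    have h5 : (∑ i ∈ range n, A i : ℤ) = ((∑ i ∈ range n, κ.1 i : ℕ) : ℤ) := by
      push_cast
      linarith
    rw [← h4, hκ] at h5
    rw [h1]
    exact_mod_cast h5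
  · intro k
    have h1 := hsumA k
    have h2 := hA2 k
    have h3 := sum_ex σ k
    have : (∑ i ∈ range k, κ.1 i : ℤ) ≤ ∑ i ∈ range k, (g i : ℤ) := by linarith
    exact_mod_cast this
  · obtain ⟨k, hk, h3⟩ := sum_ex_lt σ hσ
    refine ⟨k, hk, ?_⟩
    have h1 := hsumA k
    have h2 := hA2 k
    have : (∑ i ∈ range k, κ.1 i : ℤ) < ∑ i ∈ range k, (g i : ℤ) := by linarith
    exact_mod_cast this
  · rw [hp, hp]
    have h1 : ∀ i : Fin n, hz K ((κ.1 i : ℤ) - (i : ℤ) + (σ i : ℤ)) = hz K (a i : ℤ) := by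
      intro i
      rw [ha']
    have h2 : ∀ i : Fin n, hz K ((κ'.1 i : ℕ) : ℤ) = hz K (a (τ i) : ℤ) := by
      intro i
      rw [hκ'1, hg1 i i.2]
    simp only [h1, h2]
    exact (Equiv.prod_comp τ (fun i : Fin n => hz K (a i : ℤ))).symm

theorem schur_eq (n : ℕ) (lam : ℕ → ℕ) : schur K n lam
    = ∑ σ : Equiv.Perm (Fin n), ((Equiv.Perm.sign σ : ℤ) : Sy K) *
      hp K n (fun i => (lam i : ℤ) - (i : ℤ) + (σ i : ℤ)) := by
  rw [schur, ← Matrix.det_transpose, Matrix.det_apply']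
  rfl

/-- the sum of the partial sums -/
def ms (n : ℕ) (κ : Par) : ℕ := ∑ k ∈ range (n + 1), ∑ i ∈ range k, κ.1 i

theorem partial_le (n : ℕ) (κ : Par) (hκ : card κ = n) (k : ℕ) : ∑ i ∈ range k, κ.1 i ≤ n := by
  rw [← hκ, TH.card_range κ (card κ + k) (fun i hi => κ.zero_of_card_le (by omega))]
  exact Finset.sum_le_sum_of_subset (fun x hx => by
    rw [mem_range] at hx ⊢; omega)

theorem ms_le (n : ℕ) (κ : Par) (hκ : card κ = n) : ms n κ ≤ (n + 1) * n := by
  rw [ms]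
  calc ∑ k ∈ range (n + 1), ∑ i ∈ range k, κ.1 i ≤ ∑ k ∈ range (n + 1), n :=
        Finset.sum_le_sum fun k _ => partial_le n κ hκ k
    _ = (n + 1) * n := by rw [Finset.sum_const, Finset.card_range, smul_eq_mul]

theorem ms_lt (n : ℕ) (κ κ' : Par) (h : Dom κ.1 κ'.1)
    (h2 : ∃ k, k ≤ n ∧ ∑ i ∈ range k, κ.1 i < ∑ i ∈ range k, κ'.1 i) : ms n κ < ms n κ' := by
  obtain ⟨k, hk, hlt⟩ := h2
  exact Finset.sum_lt_sum (fun k _ => h k) ⟨k, mem_range.2 (by omega), hlt⟩

theorem dom_trans {f g h : ℕ → ℕ} (h1 : Dom f g) (h2 : Dom g h) : Dom f h := fun k =>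
  (h1 k).trans (h2 k)

theorem hp_mem (n : ℕ) (d : ℕ) : ∀ κ : Par, card κ = n → (n + 1) * n - ms n κ = d →
    hp K n (fun i => (κ.1 i : ℤ)) ∈
      Submodule.span K {s | ∃ κ' : Par, (card κ' = n ∧ Dom κ.1 κ'.1) ∧ s = schur K n κ'.1} := by
  induction d using Nat.strong_induction_on with
  | _ d ih =>
    intro κ hκ hd
    have h1 : ∀ σ : Equiv.Perm (Fin n), σ ≠ 1 →
        hp K n (fun i => (κ.1 i : ℤ) - (i : ℤ) + (σ i : ℤ)) ∈
        Submodule.span K {s | ∃ κ' : Par, (card κ' = n ∧ Dom κ.1 κ'.1) ∧ s = schur K n κ'.1} := by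
      intro σ hσ
      rcases key (K := K) n κ hκ σ hσ with h | ⟨κ', hc, hD, hlt, he⟩
      · rw [h]; exact Submodule.zero_mem _
      · rw [he]
        have h3 := ms_lt n κ κ' hD hlt
        have h4 := ms_le n κ' hc
        have h5 := ih ((n + 1) * n - ms n κ') (by omega) κ' hc rfl
        refine Submodule.span_mono ?_ h5
        rintro s ⟨κ'', ⟨hc'', hD''⟩, rfl⟩
        exact ⟨κ'', ⟨hc'', dom_trans hD hD''⟩, rfl⟩
    have h2 := schur_eq (K := K) n κ.1
    rw [← Finset.add_sum_erase _ _ (Finset.mem_univ (1 : Equiv.Perm (Fin n)))] at h2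
    have h3 : hp K n (fun i => (κ.1 i : ℤ) - (i : ℤ) + ((1 : Equiv.Perm (Fin n)) i : ℤ))
        = hp K n (fun i => (κ.1 i : ℤ)) := by
      congr 1
      funext i
      simp
    rw [h3, Equiv.Perm.sign_one, Units.val_one, Int.cast_one, one_mul] at h2
    have h4 : hp K n (fun i => (κ.1 i : ℤ)) = schur K n κ.1
        - ∑ x ∈ univ.erase (1 : Equiv.Perm (Fin n)), ((Equiv.Perm.sign x : ℤ) : Sy K) *
          hp K n (fun i => (κ.1 i : ℤ) - (i : ℤ) + (x i : ℤ)) := by
      rw [h2]; ring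
    rw [h4]
    refine Submodule.sub_mem _ (Submodule.subset_span ⟨κ, ⟨hκ, fun k => le_rfl⟩, rfl⟩) ?_
    refine Submodule.sum_mem _ fun σ hσ => ?_
    have h5 : ((Equiv.Perm.sign σ : ℤ) : Sy K) *
          hp K n (fun i => (κ.1 i : ℤ) - (i : ℤ) + (σ i : ℤ)) =
        ((Equiv.Perm.sign σ : ℤ) : K) •
          hp K n (fun i => (κ.1 i : ℤ) - (i : ℤ) + (σ i : ℤ)) := by
      rw [MvPolynomial.smul_eq_C_mul]
      congr 1
    rw [h5]
    exact Submodule.smul_mem _ _ (h1 σ (Finset.ne_of_mem_erase hσ))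

/-- there are finitely many partitions of `n` -/
theorem finite_card (n : ℕ) : {κ : Par | card κ = n}.Finite := by
  have h : Set.InjOn (fun κ : Par => fun i : Fin n => (⟨min (κ.1 i) n, by omega⟩ : Fin (n + 1)))
      {κ : Par | card κ = n} := by
    intro κ hκ κ' hκ' he
    apply Subtype.ext
    ext i
    by_cases hi : i < n
    · have h1 := congrFun he ⟨i, hi⟩
      simp only [Fin.mk.injEq] at h1
      have h2 : ∀ κ : Par, card κ = n → κ.1 i ≤ n := by
        intro κ hκ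
        have h3 := partial_le n κ hκ (i + 1)
        rw [sum_range_succ] at h3
        omega
      have h3 := h2 κ hκ
      have h4 := h2 κ' hκ'
      rw [min_eq_left h3, min_eq_left h4] at h1
      exact h1
    · have h1 : card κ = n := hκ
      have h2 : card κ' = n := hκ'
      rw [κ.zero_of_card_le (by omega), κ'.zero_of_card_le (by omega)]
  exact Set.Finite.of_finite_image (Set.toFinite _) h

end

theorem st_HH (K : Type*) [Field K] [CharZero K] : ST_HH K := by
  classical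
  intro n ν hν σ hσ
  have hfin : {κ : Par | card κ = n ∧ Dom ν.1 κ.1 ∧ κ ≠ ν}.Finite :=
    (finite_card n).subset (fun κ h => h.1)
  refine ⟨hfin.toFinset, fun κ hκ => by simpa using hκ, ?_⟩
  rcases key (K := K) n ν hν σ hσ with h | ⟨κ', hc, hD, hlt, he⟩
  · rw [h]; exact Submodule.zero_mem _
  · rw [he]
    refine Submodule.span_mono ?_ (hp_mem (K := K) n _ κ' hc rfl)
    rintro s ⟨κ'', ⟨hc'', hD''⟩, rfl⟩
    refine ⟨κ'', ?_, rfl⟩
    rw [Set.Finite.mem_toFinset]
    refine ⟨hc'', dom_trans hD hD'', ?_⟩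
    rintro rfl
    obtain ⟨k, _, hk⟩ := hlt
    have := hD'' k
    omega

end TH95
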