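import Pool.Agent.Helper86.TH.Stmts
import Pool.Agent.Helper95.TH.HH

/-! # Row HAI of the project TH: Haiman's characterisation gives eigenvectors -/

set_option linter.unusedSectionVars false

namespace TH95

open TH MvPolynomial Finset

section
variable {K : Type*} [Field K] [CharZero K]

theorem WH_zero (n : ℕ) : WH n (0 : Sy K) := by
  intro d hd; simp at hd

theorem WH_smul {n : ℕ} {F : Sy K} (c : K) (h : WH n F) : WH n (c • F) := by
  intro d hd
  rw [coeff_smul] at hd
  exact h (right_ne_zero_of_mul hd)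

theorem WH_C_mul {n : ℕ} {F : Sy K} (c : K) (h : WH n F) : WH n (C c * F) := by
  rw [← smul_eq_C_mul]; exact WH_smul c h

theorem WH_sum {ι : Type*} (s : Finset ι) (f : ι → Sy K) (n : ℕ) (h : ∀ i ∈ s, WH n (f i)) :
    WH n (∑ i ∈ s, f i) := IsWeightedHomogeneous.sum s f n h

theorem WH_mul {m n : ℕ} {F G : Sy K} (h1 : WH m F) (h2 : WH n G) : WH (m + n) (F * G) :=
  IsWeightedHomogeneous.mul h1 h2

theorem WH_X (j : ℕ) : WH (j + 1) (X j : Sy K) :=
  isWeightedHomogeneous_X K (fun j : ℕ => j + 1) j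

theorem WH_one : WH 0 (1 : Sy K) := isWeightedHomogeneous_one K (fun j : ℕ => j + 1)

theorem WH_hc (c : ℕ → Sy K) (hc' : ∀ j, WH (j + 1) (c j)) (n : ℕ) : WH n (hc c n) := by
  induction n using Nat.strong_induction_on with
  | _ n ih =>
    rcases n with _ | n
    · rw [hc]; exact WH_one
    · rw [hc]
      have h1 : WH (n + 1) (∑ i : Fin (n + 1), c i * hc c (n - i)) := by
        refine WH_sum _ _ _ fun i _ => ?_
        have h2 := WH_mul (hc' i) (ih (n - i) (by omega))
        have h3 : (i : ℕ) + 1 + (n - i) = n + 1 := by have := i.2; omega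
        rwa [h3] at h2
      have h4 : (((n : ℚ) + 1)⁻¹) • (∑ i : Fin (n + 1), c i * hc c (n - i))
          = ((algebraMap ℚ K) (((n : ℚ) + 1)⁻¹)) • (∑ i : Fin (n + 1), c i * hc c (n - i)) := by
        rw [algebraMap_smul]
      rw [h4]
      exact WH_smul _ h1

theorem WH_hh (n : ℕ) : WH n (hh K n) := WH_hc _ WH_X n

theorem WH_hz (r : ℤ) : WH r.toNat (hz K r) := by
  rw [hz]
  split_ifs
  · exact WH_hh _
  · exact WH_zero _

theorem WH_hp (n : ℕ) (r : Fin n → ℤ) (m : ℕ) (h : (m : ℤ) = ∑ i, r i) : WH m (hp K n r) := by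
  by_cases hneg : ∃ i : Fin n, r i < 0
  · obtain ⟨i, hi⟩ := hneg
    have : hp K n r = 0 := by
      rw [hp]
      refine Finset.prod_eq_zero (Finset.mem_univ i) ?_
      rw [hz, if_neg (by omega)]
    rw [this]; exact WH_zero _
  · push Not at hneg
    have h1 : m = ∑ i, (r i).toNat := by
      have : (m : ℤ) = ((∑ i, (r i).toNat : ℕ) : ℤ) := by
        push_cast
        rw [h]
        refine Finset.sum_congr rfl fun i _ => ?_
        exact (Int.toNat_of_nonneg (hneg i)).symm
      exact_mod_cast this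
    rw [h1]
    exact IsWeightedHomogeneous.prod univ (fun i => hz K (r i)) (fun i => (r i).toNat)
      (fun i _ => WH_hz (r i))

theorem WH_schur (n : ℕ) (ν : Par) (hν : card ν = n) : WH n (schur K n ν.1) := by
  rw [schur_eq]
  refine WH_sum _ _ _ fun σ _ => ?_
  have h1 : ((Equiv.Perm.sign σ : ℤ) : Sy K) = C ((Equiv.Perm.sign σ : ℤ) : K) := by simp
  rw [h1]
  refine WH_C_mul _ (WH_hp n _ n ?_)
  rw [Finset.sum_add_distrib, Finset.sum_sub_distrib]
  have h2 : ∑ i : Fin n, ((σ i : ℕ) : ℤ) = ∑ i : Fin n, ((i : ℕ) : ℤ) :=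
    Equiv.sum_comp σ (fun i : Fin n => ((i : ℕ) : ℤ))
  rw [h2]
  have h3 := TH.card_range ν n (fun i hi => ν.zero_of_card_le (by omega))
  rw [Finset.sum_range] at h3
  have h4 : (n : ℤ) = ∑ i : Fin n, (ν.1 i : ℤ) := by
    rw [hν] at h3
    exact_mod_cast h3
  linarith

theorem WH_SpD (n : ℕ) (f : ℕ → ℕ) (F : Sy K) (h : F ∈ SpD K n f) : WH n F := by
  rw [SpD] at h
  induction h using Submodule.span_induction with
  | mem x hx =>
    obtain ⟨ν, hc, _, rfl⟩ := hx
    exact WH_schur n ν hc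
  | zero => exact WH_zero n
  | add x y _ _ hx hy => exact IsWeightedHomogeneous.add hx hy
  | smul c x _ hx => exact WH_smul c hx

theorem plq_coeff (q : K) (F : Sy K) (s : ℕ →₀ ℕ) :
    coeff s (plq q F) = (s.prod fun j a => (1 - q ^ (j + 1)) ^ a) * coeff s F := by
  classical
  induction F using MvPolynomial.induction_on' with
  | monomial m a =>
    have h1 : plq q (monomial m a) = monomial m (a * (m.prod fun j a => (1 - q ^ (j + 1)) ^ a)) := by
      rw [plq, aeval_monomial]
      have h2 : (m.prod fun i k => (C (1 - q ^ (i + 1)) * X i : Sy K) ^ k)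
          = C (m.prod fun j a => (1 - q ^ (j + 1)) ^ a) * m.prod fun i k => (X i : Sy K) ^ k := by
        rw [Finsupp.prod, Finsupp.prod, Finsupp.prod, map_prod, ← Finset.prod_mul_distrib]
        refine Finset.prod_congr rfl fun i _ => ?_
        rw [mul_pow, map_pow]
      rw [h2, MvPolynomial.algebraMap_eq, ← mul_assoc, ← C_mul, monomial_eq]
    rw [h1, coeff_monomial, coeff_monomial]
    split_ifs with h
    · subst h; ring
    · ring
  | add p r hp hr => rw [map_add, coeff_add, hp, hr, coeff_add]; ring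

theorem WH_of_plq (q : K) (hq : ∀ j : ℕ, 1 - q ^ (j + 1) ≠ 0) (n : ℕ) (F : Sy K)
    (h : WH n (plq q F)) : WH n F := by
  intro s hs
  refine h (d := s) ?_
  rw [plq_coeff]
  refine mul_ne_zero ?_ hs
  rw [Finsupp.prod]
  exact Finset.prod_ne_zero_iff.2 fun j _ => pow_ne_zero _ (hq j)

/-- the linear algebra: two polynomials with at most one common root -/
theorem eig_of_two {V : Type*} [AddCommGroup V] [Module K V] (A : Module.End K V) (v : V)
    {ι κ : Type*} (S : Finset ι) (S' : Finset κ) (c : ι → K) (c' : κ → K) (c0 : K) (i0 : ι)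
    (hi0 : c i0 = c0)
    (hcop : ∀ i ∈ S, i ≠ i0 → ∀ j ∈ S', c i ≠ c' j)
    (h1 : (Polynomial.aeval A (∏ i ∈ S, (Polynomial.X - Polynomial.C (c i)))) v = 0)
    (h2 : (Polynomial.aeval A (∏ j ∈ S', (Polynomial.X - Polynomial.C (c' j)))) v = 0) :
    A v = c0 • v := by
  classical
  set R1 : Polynomial K := ∏ i ∈ S.erase i0, (Polynomial.X - Polynomial.C (c i)) with hR1
  set P2 : Polynomial K := ∏ j ∈ S', (Polynomial.X - Polynomial.C (c' j)) with hP2
  have hco : IsCoprime R1 P2 := by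
    refine IsCoprime.prod_left fun i hi => IsCoprime.prod_right fun j hj => ?_
    refine Polynomial.isCoprime_X_sub_C_of_isUnit_sub ?_
    rw [isUnit_iff_ne_zero]
    exact sub_ne_zero.2 (hcop i (Finset.mem_of_mem_erase hi) (Finset.ne_of_mem_erase hi) j hj)
  obtain ⟨a, b, hab⟩ := hco
  have h3 : ∃ r : Polynomial K, (Polynomial.X - Polynomial.C c0) * R1
      = r * ∏ i ∈ S, (Polynomial.X - Polynomial.C (c i)) := by
    by_cases hi : i0 ∈ S
    · refine ⟨1, ?_⟩
      rw [one_mul, ← Finset.mul_prod_erase _ _ hi, hi0]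
    · refine ⟨Polynomial.X - Polynomial.C c0, ?_⟩
      rw [hR1, Finset.erase_eq_of_notMem hi]
  obtain ⟨r, hr⟩ := h3
  have h4 : (Polynomial.X - Polynomial.C c0)
      = a * (r * ∏ i ∈ S, (Polynomial.X - Polynomial.C (c i)))
        + (Polynomial.X - Polynomial.C c0) * b * P2 := by
    rw [← hr]
    calc (Polynomial.X - Polynomial.C c0) = (Polynomial.X - Polynomial.C c0) * (a * R1 + b * P2) := by
          rw [hab, mul_one]
      _ = _ := by ring
  have h5 : (Polynomial.aeval A (Polynomial.X - Polynomial.C c0)) v = 0 := by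
    rw [h4, map_add, map_mul, map_mul, map_mul _ _ P2, LinearMap.add_apply, Module.End.mul_apply,
      Module.End.mul_apply, Module.End.mul_apply, h1, h2, map_zero, map_zero, map_zero, add_zero]
  rw [map_sub, Polynomial.aeval_X, Polynomial.aeval_C, LinearMap.sub_apply, sub_eq_zero] at h5
  rw [h5]
  rfl

theorem st_HAI (hHT : ST_HT K) (hHQ : ST_HQ K) (hCNJ : ST_CNJ K) (hDOM : ST_DOM)
    (hCAU : ST_CAU K) : ST_HAI K := by
  classical
  intro q t H hG hH
  have hM : Mj q t 0 ≠ 0 := hG.Mj_ne 0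
  have hq : ∀ j : ℕ, 1 - q ^ (j + 1) ≠ 0 := fun j => left_ne_zero_of_mul (hG.Mj_ne j)
  have hG' : Gn t q := by
    refine ⟨hG.t0, hG.q0, fun a b h => ?_, fun μ ν h => ?_⟩
    · have := hG.ind b a (by rw [mul_comm]; exact h)
      exact ⟨this.2, this.1⟩
    · obtain ⟨μ', h1, h2, h3, h4⟩ := hCNJ μ
      obtain ⟨ν', k1, k2, k3, k4⟩ := hCNJ ν
      have h5 : μ' = ν' := hG.inj μ' ν' (by rw [h4 q t, k4 q t, h])
      subst h5
      apply Subtype.ext
      ext i
      have := congrFun (h3.symm.trans k3) i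
      exact this
  refine ⟨fun μ => ?_, fun μ => ?_, fun μ => ?_⟩
  · exact WH_of_plq q hq _ _ (WH_SpD _ _ _ (hH.tri1 μ))
  · obtain ⟨S, hS, hP1⟩ := hHT q t hG (card μ) μ.1
    obtain ⟨S', hS', hP2⟩ := hHT t q hG' (card μ) (cnj μ)
    have h1 := hP1 (H μ) (hH.tri1 μ)
    have h2 := hP2 (H μ) (hH.tri2 μ)
    rw [← hHQ q t 0] at h2
    refine eig_of_two (Dk q t 0) (H μ) S S' (fun ν => 1 - Mj q t 0 * Ps q t ν 0)
      (fun ν => 1 - Mj t q 0 * Ps t q ν 0) _ μ rfl ?_ h1 h2
    intro ν hν hne κ hκ he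
    apply hne
    obtain ⟨κ', k1, k2, k3, k4⟩ := hCNJ κ
    have h3 : Mj t q 0 = Mj q t 0 := by rw [Mj, Mj, mul_comm]
    simp only [h3] at he
    have h4 : Ps q t ν 0 = Ps t q κ 0 := by
      have : Mj q t 0 * Ps q t ν 0 = Mj q t 0 * Ps t q κ 0 := by linear_combination -he
      exact mul_left_cancel₀ hM this
    rw [← k4 q t] at h4
    have h5 : ν = κ' := hG.inj _ _ h4
    subst h5
    have h6 := hS ν hν
    have h7 := hS' κ hκ
    refine (hDOM μ ν h6.1.symm h6.2 ?_).symm
    rw [k3]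
    exact h7.2
  · have h1 := hH.norm μ
    have h2 := hCAU (fun _ => 1) (card μ) (H μ) (WH_of_plq q hq _ _ (WH_SpD _ _ _ (hH.tri1 μ)))
    have h3 : (fun j => (C ((fun _ => (1 : K)) j) * X j : Sy K)) = fun j => X j := by
      funext j; simp
    rw [h3] at h2
    have h4 : hc (fun j => (X j : Sy K)) (card μ) = hh K (card μ) := rfl
    rw [h4, h1] at h2
    have h5 : (fun j : ℕ => (1 : K) - 0 ^ (j + 1)) = fun _ => 1 := by
      funext j; simp
    rw [ep, h5]
    exact h2.symm

end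

end TH95
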